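import Mathlib

set_option autoImplicit false

/-!
CIS graphs with `α ω` much smaller than the number of vertices.
-/

namespace Pool.Agent.Results.MP_703660_co.SmallProduct

/-- `G` is a CIS graph: every maximal clique and every maximal stable set have a common vertex -/
def IsCIS {V : Type} (G : SimpleGraph V) : Prop :=
  ∀ K S : Set V, Maximal (fun K : Set V => G.IsClique K) K →
    Maximal (fun S : Set V => G.IsIndepSet S) S → (K ∩ S).Nonempty

open Finset

/-! ### Lexicographic products -/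

/-- the lexicographic product: every vertex of `G` is replaced by a copy of `H` -/
def lex {V W : Type} (G : SimpleGraph V) (H : SimpleGraph W) : SimpleGraph (V × W) where
  Adj x y := G.Adj x.1 y.1 ∨ (x.1 = y.1 ∧ H.Adj x.2 y.2)
  symm := ⟨fun _ _ h => h.imp (fun h => h.symm) (fun h => ⟨h.1.symm, h.2.symm⟩)⟩
  loopless := ⟨fun _ h => h.elim (fun h => G.loopless.irrefl _ h)
    (fun h => H.loopless.irrefl _ h.2)⟩

lemma max_clique_insert {V : Type} {G : SimpleGraph V} {K : Set V}
    (hK : Maximal (fun K : Set V => G.IsClique K) K) {v : V} (h : ∀ u ∈ K, u ≠ v → G.Adj v u) :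
    v ∈ K := by
  have h1 : G.IsClique (insert v K) := by
    intro x hx y hy hxy
    rcases hx with rfl | hx <;> rcases hy with rfl | hy
    · exact absurd rfl hxy
    · exact h y hy (fun h => hxy h.symm)
    · exact (h x hx hxy).symm
    · exact hK.1 hx hy hxy
  exact hK.2 h1 (Set.subset_insert _ _) (Set.mem_insert _ _)

lemma max_indep_insert {V : Type} {G : SimpleGraph V} {S : Set V}
    (hS : Maximal (fun S : Set V => G.IsIndepSet S) S) {v : V} (h : ∀ u ∈ S, ¬ G.Adj v u) :
    v ∈ S := by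
  have h1 : G.IsIndepSet (insert v S) := by
    intro x hx y hy hxy
    rcases hx with rfl | hx <;> rcases hy with rfl | hy
    · exact absurd rfl hxy
    · exact h y hy
    · exact fun h' => h x hx h'.symm
    · exact hS.1 hx hy hxy
  exact hS.2 h1 (Set.subset_insert _ _) (Set.mem_insert _ _)

lemma proj_clique {V W : Type} [Nonempty W] {G : SimpleGraph V} {H : SimpleGraph W}
    {K : Set (V × W)} (hK : Maximal (fun K : Set (V × W) => (lex G H).IsClique K) K) :
    Maximal (fun K : Set V => G.IsClique K) (Prod.fst '' K) ∧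
      ∀ v ∈ Prod.fst '' K, Maximal (fun K : Set W => H.IsClique K) {w | (v, w) ∈ K} := by
  obtain ⟨w₀⟩ := ‹Nonempty W›
  have hKA : ∀ x ∈ K, ∀ y ∈ K, x.1 ≠ y.1 → G.Adj x.1 y.1 := by
    intro x hx y hy hxy
    rcases hK.1 hx hy (fun h => hxy (by rw [h])) with h | h
    · exact h
    · exact absurd h.1 hxy
  refine ⟨⟨?_, ?_⟩, ?_⟩
  · rintro _ ⟨x, hx, rfl⟩ _ ⟨y, hy, rfl⟩ hxy
    exact hKA x hx y hy hxy
  · intro A hA hsub v hv
    by_contra hcon
    apply hcon
    refine ⟨(v, w₀), ?_, rfl⟩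
    apply max_clique_insert hK
    intro u hu huv
    have hne : v ≠ u.1 := fun h => hcon ⟨u, hu, h.symm⟩
    exact Or.inl (hA hv (hsub ⟨u, hu, rfl⟩) hne)
  · intro v hv
    refine ⟨?_, ?_⟩
    · intro w hw w' hw' hne
      rcases hK.1 hw hw' (fun h => hne (congrArg Prod.snd h)) with h | h
      · exact absurd h (G.loopless.irrefl v)
      · exact h.2
    · intro C hC hsub w hw
      apply max_clique_insert hK
      rintro ⟨a, b⟩ hu huv
      by_cases h : a = v
      · subst h
        exact Or.inr ⟨rfl, hC hw (hsub hu) (fun h => huv (by rw [h]))⟩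
      · obtain ⟨x, hx, rfl⟩ := hv
        exact Or.inl (hKA x hx _ hu (fun h' => h h'.symm))

lemma proj_indep {V W : Type} [Nonempty W] {G : SimpleGraph V} {H : SimpleGraph W}
    {S : Set (V × W)} (hS : Maximal (fun S : Set (V × W) => (lex G H).IsIndepSet S) S) :
    Maximal (fun S : Set V => G.IsIndepSet S) (Prod.fst '' S) ∧
      ∀ v ∈ Prod.fst '' S, Maximal (fun S : Set W => H.IsIndepSet S) {w | (v, w) ∈ S} := by
  obtain ⟨w₀⟩ := ‹Nonempty W›
  have hSA : ∀ x ∈ S, ∀ y ∈ S, x.1 ≠ y.1 → ¬ G.Adj x.1 y.1 := by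
    intro x hx y hy hxy h
    exact hS.1 hx hy (fun h => hxy (by rw [h])) (Or.inl h)
  refine ⟨⟨?_, ?_⟩, ?_⟩
  · rintro _ ⟨x, hx, rfl⟩ _ ⟨y, hy, rfl⟩ hxy
    exact hSA x hx y hy hxy
  · intro A hA hsub v hv
    by_contra hcon
    apply hcon
    refine ⟨(v, w₀), ?_, rfl⟩
    apply max_indep_insert hS
    rintro u hu (h | h)
    · have hne : v ≠ u.1 := fun h => hcon ⟨u, hu, h.symm⟩
      exact hA hv (hsub ⟨u, hu, rfl⟩) hne h
    · exact hcon ⟨u, hu, h.1.symm⟩
  · intro v hv
    refine ⟨?_, ?_⟩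
    · intro w hw w' hw' hne h
      exact hS.1 hw hw' (fun h => hne (congrArg Prod.snd h)) (Or.inr ⟨rfl, h⟩)
    · intro C hC hsub w hw
      apply max_indep_insert hS
      rintro ⟨a, b⟩ hu (h | h)
      · obtain ⟨x, hx, rfl⟩ := hv
        exact hSA x hx _ hu (fun h' => G.loopless.irrefl x.1 (by
          have h2 : G.Adj x.1 a := h
          rw [← show x.1 = a from h'] at h2
          exact h2)) h
      · obtain ⟨h1, h2⟩ := h
        simp only at h1 h2
        subst h1
        exact hC hw (hsub hu) (fun h => H.loopless.irrefl w (by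
          rw [← h] at h2
          exact h2)) h2

lemma lex_cis {V W : Type} [Nonempty W] {G : SimpleGraph V} {H : SimpleGraph W} (hG : IsCIS G)
    (hH : IsCIS H) : IsCIS (lex G H) := by
  intro K S hK hS
  obtain ⟨h1, h2⟩ := proj_clique hK
  obtain ⟨h3, h4⟩ := proj_indep hS
  obtain ⟨v, hvK, hvS⟩ := hG _ _ h1 h3
  obtain ⟨w, hwK, hwS⟩ := hH _ _ (h2 v hvK) (h4 v hvS)
  exact ⟨(v, w), hwK, hwS⟩

lemma card_le_of_fibers {V W : Type} [DecidableEq V] [DecidableEq W] (K : Finset (V × W))
    {a b : ℕ} (h1 : (K.image Prod.fst).card ≤ a)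
    (h2 : ∀ v ∈ K.image Prod.fst, ((K.filter (fun x => x.1 = v)).image Prod.snd).card ≤ b) :
    K.card ≤ a * b := by
  have h3 : ∀ v ∈ K.image Prod.fst, (K.filter (fun x => x.1 = v)).card ≤ b := by
    intro v hv
    refine le_trans (le_of_eq ?_) (h2 v hv)
    rw [card_image_of_injOn]
    intro x hx y hy hxy
    rw [mem_coe, mem_filter] at hx hy
    exact Prod.ext (hx.2.trans hy.2.symm) hxy
  calc K.card = ∑ v ∈ K.image Prod.fst, (K.filter (fun x => x.1 = v)).card :=
        card_eq_sum_card_fiberwise (fun x hx => mem_image_of_mem _ hx)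
    _ ≤ ∑ v ∈ K.image Prod.fst, b := sum_le_sum h3
    _ = (K.image Prod.fst).card * b := by rw [sum_const, smul_eq_mul]
    _ ≤ a * b := Nat.mul_le_mul_right _ h1

lemma lex_clique {V W : Type} [Fintype V] [Fintype W] (G : SimpleGraph V) (H : SimpleGraph W) :
    (lex G H).cliqueNum ≤ G.cliqueNum * H.cliqueNum := by
  classical
  obtain ⟨K, hK⟩ := (lex G H).exists_isNClique_cliqueNum
  rw [← hK.card_eq]
  have hKc : ∀ x ∈ K, ∀ y ∈ K, x ≠ y → (lex G H).Adj x y := fun x hx y hy h => hK.isClique hx hy h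
  apply card_le_of_fibers
  · apply SimpleGraph.IsClique.card_le_cliqueNum (tc := ?_)
    intro a ha b hb hab
    rw [mem_coe, mem_image] at ha hb
    obtain ⟨x, hx, rfl⟩ := ha
    obtain ⟨y, hy, rfl⟩ := hb
    rcases hKc x hx y hy (fun h => hab (by rw [h])) with h | h
    · exact h
    · exact absurd h.1 hab
  · intro v _
    apply SimpleGraph.IsClique.card_le_cliqueNum (tc := ?_)
    intro a ha b hb hab
    rw [mem_coe, mem_image] at ha hb
    obtain ⟨x, hx, rfl⟩ := ha
    obtain ⟨y, hy, rfl⟩ := hb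
    rw [mem_filter] at hx hy
    rcases hKc x hx.1 y hy.1 (fun h => hab (by rw [h])) with h | h
    · rw [hx.2, hy.2] at h
      exact absurd h (G.loopless.irrefl v)
    · exact h.2

lemma lex_indep {V W : Type} [Fintype V] [Fintype W] (G : SimpleGraph V) (H : SimpleGraph W) :
    (lex G H).indepNum ≤ G.indepNum * H.indepNum := by
  classical
  obtain ⟨K, hK⟩ := (lex G H).exists_isNIndepSet_indepNum
  rw [← hK.card_eq]
  have hKc : ∀ x ∈ K, ∀ y ∈ K, x ≠ y → ¬ (lex G H).Adj x y :=
    fun x hx y hy h => hK.isIndepSet hx hy h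
  apply card_le_of_fibers
  · apply SimpleGraph.IsIndepSet.card_le_indepNum (tc := ?_)
    intro a ha b hb hab h
    rw [mem_coe, mem_image] at ha hb
    obtain ⟨x, hx, rfl⟩ := ha
    obtain ⟨y, hy, rfl⟩ := hb
    exact hKc x hx y hy (fun h => hab (by rw [h])) (Or.inl h)
  · intro v _
    apply SimpleGraph.IsIndepSet.card_le_indepNum (tc := ?_)
    intro a ha b hb hab h
    rw [mem_coe, mem_image] at ha hb
    obtain ⟨x, hx, rfl⟩ := ha
    obtain ⟨y, hy, rfl⟩ := hb
    rw [mem_filter] at hx hy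
    exact hKc x hx.1 y hy.1 (fun h => hab (by rw [h])) (Or.inr ⟨hx.2.trans hy.2.symm, h⟩)

/-! ### The basic graph -/

/-- adjacency in the cycle with five vertices -/
def c5 (i j : Fin 5) : Prop := j = i + 1 ∨ i = j + 1

instance : DecidableRel c5 := fun i j => inferInstanceAs (Decidable (j = i + 1 ∨ i = j + 1))

/-- the 5-cycle with every vertex replaced by three disjoint triangles, and for each of the five
edges a vertex adjacent to the 18 vertices replacing the two ends: 50 vertices -/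
def base : SimpleGraph ((Fin 5 × Fin 3 × Fin 3) ⊕ Fin 5) where
  Adj x y :=
    match x, y with
    | .inl a, .inl b => (a.1 = b.1 ∧ a.2.1 = b.2.1 ∧ a.2.2 ≠ b.2.2) ∨ c5 a.1 b.1
    | .inl a, .inr j => a.1 = j ∨ a.1 = j + 1
    | .inr j, .inl a => a.1 = j ∨ a.1 = j + 1
    | .inr _, .inr _ => False
  symm := ⟨by
    rintro (a | i) (b | j) h
    · exact h.imp (fun h => ⟨h.1.symm, h.2.1.symm, h.2.2.symm⟩) (fun h => h.symm)
    · exact h
    · exact h
    · exact h⟩
  loopless := ⟨by
    rintro (a | i) h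
    · rcases h with h | h
      · exact h.2.2 rfl
      · have : ∀ i : Fin 5, ¬ c5 i i := by decide
        exact this _ h
    · exact h⟩

lemma base_clique : base.cliqueNum ≤ 7 := by
  classical
  obtain ⟨K, hK⟩ := base.exists_isNClique_cliqueNum
  rw [← hK.card_eq]
  have hKc : ∀ x ∈ K, ∀ y ∈ K, x ≠ y → base.Adj x y := fun x hx y hy h => hK.isClique hx hy h
  rw [← card_toLeft_add_card_toRight]
  have h1 : K.toRight.card ≤ 1 := by
    rw [card_le_one]
    intro i hi j hj
    by_contra hne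
    exact hKc _ (mem_toRight.1 hi) _ (mem_toRight.1 hj) (fun h => hne (Sum.inr.inj h))
  have h2 : K.toLeft.card ≤ (K.toLeft.image Prod.fst).card * 3 := by
    apply card_le_of_fibers _ le_rfl
    intro v _
    have h3 : (((K.toLeft.filter (fun x => x.1 = v)).image Prod.snd).image Prod.snd).card ≤ 3 := by
      refine (card_le_univ _).trans ?_
      rw [Fintype.card_fin]
    refine le_trans (le_of_eq ?_) h3
    rw [card_image_of_injOn (s := (K.toLeft.filter (fun x => x.1 = v)).image Prod.snd)]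
    intro a ha b hb hab
    rw [mem_coe, mem_image] at ha hb
    obtain ⟨x, hx, rfl⟩ := ha
    obtain ⟨y, hy, rfl⟩ := hb
    rw [mem_filter] at hx hy
    by_contra hne
    rcases hKc _ (mem_toLeft.1 hx.1) _ (mem_toLeft.1 hy.1)
      (fun h => hne (by rw [Sum.inl.inj h])) with h | h
    · exact h.2.2 hab
    · rw [hx.2, hy.2] at h
      have : ∀ i : Fin 5, ¬ c5 i i := by decide
      exact this _ h
  have h3 : (K.toLeft.image Prod.fst).card ≤ 2 := by
    have key : ∀ J : Finset (Fin 5), (∀ i ∈ J, ∀ j ∈ J, i ≠ j → c5 i j) → J.card ≤ 2 := by decide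
    apply key
    intro i hi j hj hij
    rw [mem_image] at hi hj
    obtain ⟨x, hx, rfl⟩ := hi
    obtain ⟨y, hy, rfl⟩ := hj
    rcases hKc _ (mem_toLeft.1 hx) _ (mem_toLeft.1 hy)
      (fun h => hij (by rw [Sum.inl.inj h])) with h | h
    · exact absurd h.1 hij
    · exact h
  omega

lemma base_indep : base.indepNum ≤ 7 := by
  classical
  obtain ⟨K, hK⟩ := base.exists_isNIndepSet_indepNum
  rw [← hK.card_eq]
  have hKc : ∀ x ∈ K, ∀ y ∈ K, x ≠ y → ¬ base.Adj x y :=
    fun x hx y hy h => hK.isIndepSet hx hy h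
  rw [← card_toLeft_add_card_toRight]
  have h2 : K.toLeft.card ≤ (K.toLeft.image Prod.fst).card * 3 := by
    apply card_le_of_fibers _ le_rfl
    intro v _
    have h3 : (((K.toLeft.filter (fun x => x.1 = v)).image Prod.snd).image Prod.fst).card ≤ 3 := by
      refine (card_le_univ _).trans ?_
      rw [Fintype.card_fin]
    refine le_trans (le_of_eq ?_) h3
    rw [card_image_of_injOn (s := (K.toLeft.filter (fun x => x.1 = v)).image Prod.snd)]
    intro a ha b hb hab
    rw [mem_coe, mem_image] at ha hb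
    obtain ⟨x, hx, rfl⟩ := ha
    obtain ⟨y, hy, rfl⟩ := hb
    rw [mem_filter] at hx hy
    by_contra hne
    refine hKc _ (mem_toLeft.1 hx.1) _ (mem_toLeft.1 hy.1)
      (fun h => hne (by rw [Sum.inl.inj h])) (Or.inl ⟨hx.2.trans hy.2.symm, hab, ?_⟩)
    exact fun h => hne (Prod.ext hab h)
  have h3 : K.toRight ⊆ univ.filter (fun j => j ∉ K.toLeft.image Prod.fst ∧
      j + 1 ∉ K.toLeft.image Prod.fst) := by
    intro j hj
    refine mem_filter.2 ⟨mem_univ _, ?_, ?_⟩
    · intro h
      rw [mem_image] at h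
      obtain ⟨x, hx, hxj⟩ := h
      exact hKc _ (mem_toLeft.1 hx) _ (mem_toRight.1 hj) (by simp) (Or.inl hxj)
    · intro h
      rw [mem_image] at h
      obtain ⟨x, hx, hxj⟩ := h
      exact hKc _ (mem_toLeft.1 hx) _ (mem_toRight.1 hj) (by simp) (Or.inr hxj)
  have h4 : ∀ i ∈ K.toLeft.image Prod.fst, i + 1 ∉ K.toLeft.image Prod.fst := by
    intro i hi hi'
    rw [mem_image] at hi hi'
    obtain ⟨x, hx, hxi⟩ := hi
    obtain ⟨y, hy, hyi⟩ := hi'
    have h5 : ∀ i : Fin 5, i ≠ i + 1 := by decide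
    refine hKc _ (mem_toLeft.1 hx) _ (mem_toLeft.1 hy) (fun h => ?_) (Or.inr (Or.inl ?_))
    · apply h5 i
      rw [← hyi, ← Sum.inl.inj h, hxi]
    · rw [hxi, hyi]
  have key : ∀ J : Finset (Fin 5), (∀ i ∈ J, i + 1 ∉ J) →
      J.card * 3 + (univ.filter (fun j => j ∉ J ∧ j + 1 ∉ J)).card ≤ 7 := by decide
  have h5 := key _ h4
  have h6 := card_le_card h3
  omega

lemma base_cis : IsCIS base := by
  intro K S hK hS
  have hKc : ∀ x ∈ K, ∀ y ∈ K, x ≠ y → base.Adj x y := fun x hx y hy h => hK.1 hx hy h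
  -- the clique contains a vertex of the second kind
  obtain ⟨i, hi⟩ : ∃ i : Fin 5, Sum.inr i ∈ K := by
    by_contra hcon
    push Not at hcon
    obtain ⟨i, hi⟩ : ∃ i : Fin 5, ∀ x, Sum.inl x ∈ K → x.1 = i ∨ x.1 = i + 1 := by
      by_cases h1 : ∃ x, Sum.inl x ∈ K
      · obtain ⟨x, hx⟩ := h1
        by_cases h2 : ∃ y, Sum.inl y ∈ K ∧ y.1 ≠ x.1
        · obtain ⟨y, hy, hyx⟩ := h2
          have h3 : c5 x.1 y.1 := by
            rcases hKc _ hx _ hy (fun h => hyx (by rw [Sum.inl.inj h])) with h | h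
            · exact absurd h.1.symm hyx
            · exact h
          have h4 : ∀ z, Sum.inl z ∈ K → z.1 = x.1 ∨ z.1 = y.1 := by
            intro z hz
            by_contra hcon2
            push Not at hcon2
            have h5 : c5 x.1 z.1 := by
              rcases hKc _ hx _ hz (fun h => hcon2.1 (by rw [Sum.inl.inj h])) with h | h
              · exact absurd h.1.symm hcon2.1
              · exact h
            have h6 : c5 y.1 z.1 := by
              rcases hKc _ hy _ hz (fun h => hcon2.2 (by rw [Sum.inl.inj h])) with h | h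
              · exact absurd h.1.symm hcon2.2
              · exact h
            have h7 : ∀ i j k : Fin 5, c5 i j → c5 i k → ¬ c5 j k := by decide
            exact h7 _ _ _ h3 h5 h6
          rcases h3 with h3 | h3
          · exact ⟨x.1, fun z hz => by rw [← h3]; exact h4 z hz⟩
          · exact ⟨y.1, fun z hz => by rw [← h3]; exact (h4 z hz).symm⟩
        · push Not at h2
          exact ⟨x.1, fun z hz => Or.inl (h2 z hz)⟩
      · push Not at h1
        exact ⟨0, fun z hz => absurd hz (h1 z)⟩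
    apply hcon i
    apply max_clique_insert hK
    rintro (x | j) hx _
    · exact hi x hx
    · exact absurd hx (hcon j)
  by_cases hiS : Sum.inr i ∈ S
  · exact ⟨_, hi, hiS⟩
  -- a neighbour of this vertex in `S`
  obtain ⟨u, huS, hu⟩ : ∃ u ∈ S, base.Adj (Sum.inr i) u := by
    by_contra hcon
    push Not at hcon
    exact hiS (max_indep_insert hS hcon)
  rcases u with ⟨j, p, q⟩ | j
  swap
  · exact hu.elim
  have hj : j = i ∨ j = i + 1 := hu
  have hKb : ∀ x, Sum.inl x ∈ K → x.1 = i ∨ x.1 = i + 1 := by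
    intro x hx
    exact hKc _ hi _ hx (by simp)
  have hKr : ∀ j', Sum.inr j' ∈ K → j' = i := by
    intro j' hj'
    by_contra hne
    exact hKc _ hi _ hj' (fun h => hne (Sum.inr.inj h).symm)
  have hadj2 : ∀ x : Fin 5 × Fin 3 × Fin 3, (x.1 = i ∨ x.1 = i + 1) → x.1 ≠ j → c5 j x.1 := by
    intro x hx hne
    have : ∀ i j k : Fin 5, (j = i ∨ j = i + 1) → (k = i ∨ k = i + 1) → k ≠ j → c5 j k := by
      decide
    exact this i j x.1 hj hx hne
  -- the clique contains a triangle in the block of `u`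
  obtain ⟨p0, q0, h0⟩ : ∃ p0 q0, Sum.inl (j, p0, q0) ∈ K := by
    by_contra hcon
    push Not at hcon
    apply hcon 0 0
    apply max_clique_insert hK
    rintro (x | j') hx _
    · have hxj : x.1 ≠ j := fun h => hcon x.2.1 x.2.2 (by rw [← h]; exact hx)
      exact Or.inr (hadj2 x (hKb x hx) hxj)
    · rw [hKr j' hx]
      exact hj
  have htri : ∀ r, Sum.inl (j, p0, r) ∈ K := by
    intro r
    apply max_clique_insert hK
    rintro (x | j') hx hne
    · by_cases hxj : x.1 = j
      · obtain ⟨x1, x2, x3⟩ := x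
        simp only at hxj
        subst hxj
        have hx2 : x2 = p0 := by
          by_contra hne2
          rcases hKc _ hx _ h0 (fun h => hne2 (by
            have := Sum.inl.inj h
            rw [Prod.mk.injEq, Prod.mk.injEq] at this
            exact this.2.1)) with h | h
          · exact hne2 h.2.1
          · have : ∀ i : Fin 5, ¬ c5 i i := by decide
            exact this _ h
        subst hx2
        refine Or.inl ⟨rfl, rfl, fun h => hne ?_⟩
        simp only at h
        rw [h]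
      · exact Or.inr (hadj2 x (hKb x hx) hxj)
    · rw [hKr j' hx]
      exact hj
  -- the stable set meets the triangle
  by_contra hemp
  have hno : ∀ r, Sum.inl (j, p0, r) ∉ S := fun r h => hemp ⟨_, htri r, h⟩
  apply hno 0
  apply max_indep_insert hS
  rintro (x | j') hx hadj
  · rcases hadj with h | h
    · obtain ⟨x1, x2, x3⟩ := x
      obtain ⟨h1, h2, h3⟩ := h
      simp only at h1 h2
      subst h1 h2
      exact hno x3 hx
    · have h1 : (Sum.inl (j, p, q) : (Fin 5 × Fin 3 × Fin 3) ⊕ Fin 5) ≠ Sum.inl x := by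
        intro h'
        have h2 := Sum.inl.inj h'
        rw [← h2] at h
        have : ∀ i : Fin 5, ¬ c5 i i := by decide
        exact this _ h
      exact hS.1 huS hx h1 (Or.inr h)
  · exact hS.1 huS hx (by simp) hadj

/-! ### Powers -/

/-- for every `k` there is a CIS graph with `50 ^ k` vertices and `α ω ≤ 49 ^ k` -/
theorem powers (k : ℕ) : ∃ (V : Type) (_ : Fintype V) (G : SimpleGraph V), IsCIS G ∧
    Fintype.card V = 50 ^ k ∧ G.indepNum ≤ 7 ^ k ∧ G.cliqueNum ≤ 7 ^ k := by
  induction k with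
  | zero =>
    refine ⟨Unit, inferInstance, ⊥, ?_, rfl, ?_, ?_⟩
    · intro K S hK hS
      exact ⟨(), max_clique_insert hK (fun u _ h => absurd rfl h),
        max_indep_insert hS (fun u _ h => h.elim)⟩
    · obtain ⟨K, hK⟩ := (⊥ : SimpleGraph Unit).exists_isNIndepSet_indepNum
      rw [← hK.card_eq]
      exact (card_le_univ _).trans (by simp)
    · obtain ⟨K, hK⟩ := (⊥ : SimpleGraph Unit).exists_isNClique_cliqueNum
      rw [← hK.card_eq]
      exact (card_le_univ _).trans (by simp)
  | succ k ih =>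
    obtain ⟨V, _, G, h1, h2, h3, h4⟩ := ih
    refine ⟨V × ((Fin 5 × Fin 3 × Fin 3) ⊕ Fin 5), inferInstance, lex G base,
      lex_cis h1 base_cis, ?_, ?_, ?_⟩
    · rw [Fintype.card_prod, h2, pow_succ]
      rfl
    · rw [pow_succ]
      exact (lex_indep G base).trans (Nat.mul_le_mul h3 base_indep)
    · rw [pow_succ]
      exact (lex_clique G base).trans (Nat.mul_le_mul h4 base_clique)

/-- **Q1 is false.** (1) There is a CIS graph with 50 vertices, independence number at most 7 and
clique number at most 7. (2) For every `k` there is a CIS graph with `50 ^ k` vertices and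
`α ω ≤ 49 ^ k`. (3) For every `ε > 0` there is a CIS graph with `α ω < ε |V|`. -/
theorem result :
    (∃ G : SimpleGraph ((Fin 5 × Fin 3 × Fin 3) ⊕ Fin 5), IsCIS G ∧ G.indepNum ≤ 7 ∧
      G.cliqueNum ≤ 7 ∧ Fintype.card ((Fin 5 × Fin 3 × Fin 3) ⊕ Fin 5) = 50) ∧
    (∀ k : ℕ, ∃ (V : Type) (_ : Fintype V) (G : SimpleGraph V), IsCIS G ∧
      Fintype.card V = 50 ^ k ∧ G.indepNum * G.cliqueNum ≤ 49 ^ k) ∧
    (∀ ε : ℝ, 0 < ε → ∃ (V : Type) (_ : Fintype V) (G : SimpleGraph V), IsCIS G ∧
      (G.indepNum : ℝ) * G.cliqueNum < ε * Fintype.card V) ∧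
    ¬ ∀ (V : Type) [Fintype V] (G : SimpleGraph V), IsCIS G →
      Fintype.card V ≤ G.indepNum * G.cliqueNum := by
  have hpow : ∀ k : ℕ, ∃ (V : Type) (_ : Fintype V) (G : SimpleGraph V), IsCIS G ∧
      Fintype.card V = 50 ^ k ∧ G.indepNum * G.cliqueNum ≤ 49 ^ k := by
    intro k
    obtain ⟨V, _, G, h1, h2, h3, h4⟩ := powers k
    refine ⟨V, inferInstance, G, h1, h2, (Nat.mul_le_mul h3 h4).trans ?_⟩
    rw [← mul_pow]
    norm_num
  refine ⟨⟨base, base_cis, base_indep, base_clique, rfl⟩, hpow, ?_, ?_⟩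
  · intro ε hε
    obtain ⟨k, hk⟩ := exists_pow_lt_of_lt_one hε (show (49 / 50 : ℝ) < 1 by norm_num)
    obtain ⟨V, _, G, h1, h2, h3⟩ := hpow k
    refine ⟨V, inferInstance, G, h1, ?_⟩
    rw [h2]
    have h4 : (G.indepNum : ℝ) * G.cliqueNum ≤ 49 ^ k := by exact_mod_cast h3
    have h5 : (49 : ℝ) ^ k = (49 / 50) ^ k * 50 ^ k := by
      rw [← mul_pow]
      norm_num
    push_cast
    calc (G.indepNum : ℝ) * G.cliqueNum ≤ (49 / 50) ^ k * 50 ^ k := by rw [← h5]; exact h4
      _ < ε * 50 ^ k := mul_lt_mul_of_pos_right hk (by positivity)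
  · intro h
    have h1 := h _ base base_cis
    have h2 := Nat.mul_le_mul base_indep base_clique
    have h3 : Fintype.card ((Fin 5 × Fin 3 × Fin 3) ⊕ Fin 5) = 50 := rfl
    omega

end Pool.Agent.Results.MP_703660_co.SmallProduct
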